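import Pool.Agent.N121.OT.Tow

/-!
# Integrals of the third kind as functions of two points
-/

set_option autoImplicit false
set_option linter.unusedSectionVars false

open Filter Topology NumberField Polynomial

namespace Pool.Agent.N121.OT

open Pool.Agent.Y890.MV
open Pool.Agent.X255.RH (Indep)
open Pool.Agent.N207.UH (indep_equiv)

variable {N q d : ℕ} {num : Finset (Fin N) → ℕ}

/-- the names of the integrals at the point `t` -/
abbrev Nm (num : Finset (Fin N) → ℕ) (q t : ℕ) : Type :=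
  (Σ T : Finset (Fin N), Fin (num T)) ⊕ (Finset (Fin N) × (Fin q ⊕ Fin t))

/-- the integrals at the point `t` -/
noncomputable def fn (I : (Σ T : Finset (Fin N), Fin (num T)) → ℂ → ℂ) (J : Finset (Fin N) × Fin q → ℂ → ℂ)
    (G : Finset (Fin N) → ℂ × ℂ → ℂ) (a : Σ t : Fin d, Nm num q t) (x : Fin d → ℂ) : ℂ :=
  Sum.elim (fun i => I i (x a.1)) (fun b => Sum.elim (fun k => J (b.1, k) (x a.1))
    (fun s => G b.1 (x (Fin.castLE a.1.2.le s), x a.1)) b.2) a.2

theorem fn_an {V : Set ℂ} {W : Set (ℂ × ℂ)} {D : Set (Fin d → ℂ)} {I : (Σ T : Finset (Fin N), Fin (num T)) → ℂ → ℂ}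
    {J : Finset (Fin N) × Fin q → ℂ → ℂ} {G : Finset (Fin N) → ℂ × ℂ → ℂ} (hI : ∀ i, AnalyticOnNhd ℂ (I i) V)
    (hJ : ∀ i, AnalyticOnNhd ℂ (J i) V) (hG : ∀ T, AnalyticOnNhd ℂ (G T) W) (hDV : ∀ x ∈ D, ∀ s, x s ∈ V)
    (hDW : ∀ x ∈ D, ∀ s t, s < t → (x s, x t) ∈ W) (a : Σ t : Fin d, Nm num q t) : AnalyticOnNhd ℂ (fn I J G a) D := by
  intro x hx
  have hp : ∀ t : Fin d, AnalyticAt ℂ (fun x : Fin d → ℂ => x t) x := fun t =>
    (ContinuousLinearMap.proj (R := ℂ) (φ := fun _ : Fin d => ℂ) t).analyticAt x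
  obtain ⟨t, i | ⟨T, k | s⟩⟩ := a
  · exact AnalyticAt.comp (g := I i) (f := fun x : Fin d → ℂ => x t) (hI i _ (hDV x hx t)) (hp t)
  · exact AnalyticAt.comp (g := J (T, k)) (f := fun x : Fin d → ℂ => x t) (hJ _ _ (hDV x hx t)) (hp t)
  · have h1 : Fin.castLE t.2.le s < t := s.2
    exact AnalyticAt.comp (g := G T) (f := fun x : Fin d → ℂ => (x (Fin.castLE t.2.le s), x t))
      (hG T _ (hDW x hx _ _ h1)) (AnalyticAt.prod (hp _) (hp t))

theorem indepD {V : Set ℂ} {W : Set (ℂ × ℂ)} {D : Set (Fin d → ℂ)} (f : Fin N → ℂ[X])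
    (hf : ∀ j, Squarefree (f j)) (hcop : ∀ i j, i ≠ j → IsCoprime (f i) (f j)) (hdeg : ∀ j, 1 ≤ (f j).natDegree)
    (y : Fin N → ℂ → ℂ) (hy : ∀ j, AnalyticOnNhd ℂ (y j) V) (hyy : ∀ j, ∀ x ∈ V, y j x ^ 2 = (f j).eval x)
    (hy0 : ∀ j, ∀ x ∈ V, y j x ≠ 0)
    (hm : ∀ T, num T + 1 ≤ (∏ j ∈ T, f j).natDegree ∨ num T = 0)
    (c : Fin q → ℂ) (hc : Function.Injective c) (hfc : ∀ j k, (f j).eval (c k) ≠ 0)
    (I : (Σ T : Finset (Fin N), Fin (num T)) → ℂ → ℂ) (hI : ∀ i, AnalyticOnNhd ℂ (I i) V)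
    (hId : ∀ T (i : Fin (num T)), ∀ x ∈ V, deriv (I ⟨T, i⟩) x * ∏ j ∈ T, y j x = x ^ (i : ℕ))
    (J : Finset (Fin N) × Fin q → ℂ → ℂ) (hJ : ∀ i, AnalyticOnNhd ℂ (J i) V)
    (hJd : ∀ T (k : Fin q), ∀ x ∈ V, deriv (J (T, k)) x * ((x - c k) * ∏ j ∈ T, y j x) = 1)
    (G : Finset (Fin N) → ℂ × ℂ → ℂ) (hG : ∀ T, AnalyticOnNhd ℂ (G T) W)
    (hGd : ∀ T, ∀ p ∈ W, deriv (fun z => G T (p.1, z)) p.2 * ((p.2 - p.1) * ∏ j ∈ T, y j p.2) = 1)
    (hD : IsOpen D) (hDne : D.Nonempty) (hDV : ∀ x ∈ D, ∀ s, x s ∈ V) (hDW : ∀ x ∈ D, ∀ s t, s < t → (x s, x t) ∈ W)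
    (p : MvPolynomial (Σ t : Fin d, Nm num q t) (MvPolynomial (Fin d) ℂ))
    (hp : ∀ x ∈ D, evM (fn I J G) x p = 0) (x : Fin d → ℂ) (Y : (Σ t : Fin d, Nm num q t) → ℂ) : evX x Y p = 0 := by
  classical
  obtain ⟨x0, hx0⟩ := hDne
  obtain ⟨ρ, hρ, hball⟩ := Metric.isOpen_iff.1 hD x0 hx0
  have hin : ∀ x : Fin d → ℂ, (∀ t, x t ∈ Metric.ball (x0 t) ρ) → x ∈ D := by
    intro x hx
    apply hball
    rw [Metric.mem_ball, dist_pi_lt_iff hρ]
    exact hx
  refine tower (fun t => Metric.ball (x0 t) ρ) (fn I J G) ?_ ?_ p (fun x hx => hp x (hin x hx)) x Y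
  · rintro t (i | ⟨T, k | s⟩) x x' h
    · show I i (x t) = I i (x' t)
      rw [h t le_rfl]
    · show J (T, k) (x t) = J (T, k) (x' t)
      rw [h t le_rfl]
    · have h1 : Fin.castLE t.2.le s < t := s.2
      show G T (x (Fin.castLE t.2.le s), x t) = G T (x' (Fin.castLE t.2.le s), x' t)
      rw [h t le_rfl, h _ h1.le]
  · intro t x hx
    have hmem : ∀ z ∈ Metric.ball (x0 t) ρ, (fun s => if s < t then x s else if s = t then z else x0 s) ∈ D := by
      intro z hz
      refine hin _ fun s => ?_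
      beta_reduce
      split_ifs with h1 h2
      · exact hx s h1
      · rw [h2]
        exact hz
      · exact Metric.mem_ball_self hρ
    have hx0t : x0 t ∈ Metric.ball (x0 t) ρ := Metric.mem_ball_self hρ
    have zV : ∀ z ∈ Metric.ball (x0 t) ρ, z ∈ V := by
      intro z hz
      have h1 := hDV _ (hmem z hz) t
      simpa using h1
    have xV : ∀ s, s < t → x s ∈ V := by
      intro s hs
      have h1 := hDV _ (hmem _ hx0t) s
      beta_reduce at h1
      rw [if_pos hs] at h1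
      exact h1
    have W1 : ∀ s, s < t → ∀ z ∈ Metric.ball (x0 t) ρ, (x s, z) ∈ W := by
      intro s hs z hz
      have h1 := hDW _ (hmem z hz) s t hs
      beta_reduce at h1
      rw [if_pos hs, if_neg (lt_irrefl t), if_pos rfl] at h1
      exact h1
    have W2 : ∀ s s', s < s' → s' < t → (x s, x s') ∈ W := by
      intro s s' hs hs'
      have h1 := hDW _ (hmem _ hx0t) s s' hs
      beta_reduce at h1
      rw [if_pos (hs.trans hs'), if_pos hs'] at h1
      exact h1
    -- the poles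
    set cl : Fin t → Fin d := Fin.castLE t.2.le with hcl
    have hclt : ∀ s, cl s < t := fun s => s.2
    set P : Fin q ⊕ Fin t → ℂ := Sum.elim c (fun s => x (cl s)) with hP
    have hxc : ∀ (s : Fin d), s < t → ∀ k, x s ≠ c k := by
      intro s hs k h
      have h1 := hJd ∅ k _ (xV s hs)
      rw [h, sub_self, zero_mul, mul_zero] at h1
      exact zero_ne_one h1
    have hxx : ∀ s s', s < s' → s' < t → x s ≠ x s' := by
      intro s s' hs hs' h
      have h1 := hGd ∅ _ (W2 s s' hs hs')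
      simp only at h1
      rw [h, sub_self, zero_mul, mul_zero] at h1
      exact zero_ne_one h1
    have hPi : Function.Injective P := by
      rintro (k | s) (k' | s') h
      · exact congrArg Sum.inl (hc h)
      · exact absurd h.symm (hxc _ (hclt s') k)
      · exact absurd h (hxc _ (hclt s) k')
      · have h1 : x (cl s) = x (cl s') := h
        rcases lt_trichotomy (cl s) (cl s') with h2 | h2 | h2
        · exact absurd h1 (hxx _ _ h2 (hclt s'))
        · exact congrArg Sum.inr (Fin.castLE_injective _ h2)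
        · exact absurd h1.symm (hxx _ _ h2 (hclt s))
    have hPf : ∀ j k, (f j).eval (P k) ≠ 0 := by
      rintro j (k | s)
      · exact hfc j k
      · show (f j).eval (x (cl s)) ≠ 0
        rw [← hyy j _ (xV _ (hclt s))]
        exact pow_ne_zero _ (hy0 j _ (xV _ (hclt s)))
    -- the functions
    set g : Finset (Fin N) × (Fin q ⊕ Fin t) → ℂ → ℂ :=
      fun a => Sum.elim (fun k => J (a.1, k)) (fun s z => G a.1 (x (cl s), z)) a.2 with hg
    have hgan : ∀ a, AnalyticOnNhd ℂ (g a) (Metric.ball (x0 t) ρ) := by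
      rintro ⟨T, k | s⟩ z hz
      · exact hJ (T, k) z (zV z hz)
      · exact AnalyticAt.comp (g := G T) (f := fun z : ℂ => (x (cl s), z)) (hG T _ (W1 _ (hclt s) z hz))
          (AnalyticAt.prod analyticAt_const analyticAt_id)
    have hgd : ∀ T k, ∀ z ∈ Metric.ball (x0 t) ρ, deriv (g (T, k)) z * ((z - P k) * ∏ j ∈ T, y j z) = 1 := by
      rintro T (k | s) z hz
      · exact hJd T k z (zV z hz)
      · exact hGd T _ (W1 _ (hclt s) z hz)
    have h1 := Pool.Agent.N121.OQ.indepA (V := Metric.ball (x0 t) ρ) (r := q + t) (convex_ball _ _).isPreconnected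
      Metric.isOpen_ball ⟨x0 t, hx0t⟩ f hf hcop hdeg y (fun j z hz => hy j z (zV z hz))
      (fun j z hz => hyy j z (zV z hz)) num hm (fun k => P (finSumFinEquiv.symm k))
      (hPi.comp finSumFinEquiv.symm.injective) (fun j k => hPf j _)
      (Sum.elim I fun a => g (a.1, finSumFinEquiv.symm a.2))
      (by
        rintro (i | a)
        · exact fun z hz => hI i z (zV z hz)
        · exact hgan _)
      (fun T i z hz => hId T i z (zV z hz)) (fun T k z hz => hgd T _ z hz)
    have h2 := indep_equiv (Sum.map (id : (Σ T : Finset (Fin N), Fin (num T)) → _)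
      (Prod.map (id : Finset (Fin N) → _) (finSumFinEquiv (m := q) (n := (t : ℕ)))))
      (Sum.map_injective.2 ⟨Function.injective_id, Function.injective_id.prodMap finSumFinEquiv.injective⟩) h1
    have h3 : (fun i => (Sum.elim I fun a : Finset (Fin N) × Fin (q + t) => g (a.1, finSumFinEquiv.symm a.2))
        (Sum.map (id : (Σ T : Finset (Fin N), Fin (num T)) → _)
          (Prod.map (id : Finset (Fin N) → _) (finSumFinEquiv (m := q) (n := (t : ℕ)))) i)) =
        fun (i : Nm num q t) z => fn I J G ⟨t, i⟩ (Function.update x t z) := by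
      funext i z
      rcases i with i | ⟨T, k | s⟩
      · show I i z = I i (Function.update x t z t)
        rw [Function.update_self]
      · show g (T, finSumFinEquiv.symm (finSumFinEquiv (Sum.inl k))) z = J (T, k) (Function.update x t z t)
        rw [Equiv.symm_apply_apply, Function.update_self]
        rfl
      · show g (T, finSumFinEquiv.symm (finSumFinEquiv (Sum.inr s))) z =
          G T (Function.update x t z (cl s), Function.update x t z t)
        rw [Equiv.symm_apply_apply, Function.update_self, Function.update_of_ne (hclt s).ne]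
        rfl
    rw [← h3]
    exact h2

end Pool.Agent.N121.OT
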