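import Pool.Agent.N207.UH.Spec
import Pool.Agent.N207.UH.Ind
import Pool.Agent.Y890.SM.Main
import Pool.Agent.N121.OQ.Ana

/-!
# Independence of functions of several points
-/

set_option autoImplicit false
set_option linter.unusedSectionVars false

open Filter Topology NumberField Polynomial

namespace Pool.Agent.N121.OT

open Pool.Agent.Y890.MV
open Pool.Agent.X255.RH (Indep)
open Pool.Agent.N207.UH (line mix mix_em mix_ne indep_equiv)

/-- independence in a tower -/
theorem tower {d : ℕ} {τ : Fin d → Type} (B : Fin d → Set ℂ) (f : (Σ t, τ t) → (Fin d → ℂ) → ℂ)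
    (hdep : ∀ (t : Fin d) (i : τ t) (x x' : Fin d → ℂ), (∀ s, s ≤ t → x s = x' s) → f ⟨t, i⟩ x = f ⟨t, i⟩ x')
    (hind : ∀ (t : Fin d) (x : Fin d → ℂ), (∀ s, s < t → x s ∈ B s) →
      Indep (B t) (fun (i : τ t) z => f ⟨t, i⟩ (Function.update x t z)))
    (p : MvPolynomial (Σ t, τ t) (MvPolynomial (Fin d) ℂ))
    (hp : ∀ x, (∀ t, x t ∈ B t) → evX x (fun s => f s x) p = 0) (x : Fin d → ℂ) (Y : (Σ t, τ t) → ℂ) :
    evX x Y p = 0 := by
  have key : ∀ k : ℕ, k ≤ d → ∀ (x : Fin d → ℂ) (Y : (Σ t, τ t) → ℂ), (∀ t : Fin d, (t : ℕ) < d - k → x t ∈ B t) →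
      (∀ (t : Fin d) (i : τ t), (t : ℕ) < d - k → Y ⟨t, i⟩ = f ⟨t, i⟩ x) → evX x Y p = 0 := by
    intro k
    induction k with
    | zero =>
      intro _ x Y hx hY
      have h1 : Y = fun s => f s x := by
        funext s
        obtain ⟨t, i⟩ := s
        exact hY t i (by have := t.2; omega)
      rw [h1]
      exact hp x fun t => hx t (by have := t.2; omega)
    | succ k ih =>
      intro hk x Y hx hY
      set t0 : Fin d := ⟨d - k - 1, by omega⟩ with ht0
      have hinj : Function.Injective (fun i : τ t0 => (⟨t0, i⟩ : Σ t, τ t)) := by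
        intro i j hij
        exact eq_of_heq (Sigma.mk.inj hij).2
      refine line (i0 := t0) (em := fun i : τ t0 => (⟨t0, i⟩ : Σ t, τ t)) (V := B t0)
        (Φ := fun (i : τ t0) z => f ⟨t0, i⟩ (Function.update x t0 z)) hinj
        (hind t0 x fun s hs => hx s (by
          have h1 : (s : ℕ) < d - k - 1 := hs
          omega)) fun z hz => ?_
      refine ih (by omega) _ _ (fun t ht => ?_) (fun t i ht => ?_)
      · by_cases h : t = t0
        · subst h
          rw [Function.update_self]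
          exact hz
        · rw [Function.update_of_ne h]
          refine hx t ?_
          have h1 : (t : ℕ) ≠ d - k - 1 := fun h2 => h (Fin.ext h2)
          omega
      · by_cases h : t = t0
        · subst h
          exact mix_em hinj Y _ i
        · have h1 : (t : ℕ) ≠ d - k - 1 := fun h2 => h (Fin.ext h2)
          have h2 : (t : ℕ) < d - (k + 1) := by omega
          rw [mix_ne _ _ (fun j hj => h (congrArg Sigma.fst hj).symm), hY t i h2]
          refine hdep t i _ _ fun s hs => ?_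
          have h3 : s ≠ t0 := by
            intro h4
            have h5 : (s : ℕ) = d - k - 1 := by rw [h4]
            have h6 : (s : ℕ) ≤ t := hs
            omega
          rw [Function.update_of_ne h3]
  refine key d le_rfl x Y (fun t ht => ?_) (fun t i ht => ?_)
  · omega
  · omega

/-- the free torsor -/
theorem torFree {X σ : Type} [Fintype X] {U : Set (X → ℂ)} {f : σ → (X → ℂ) → ℂ}
    (h : ∀ p : MvPolynomial σ (MvPolynomial X ℂ), (∀ x ∈ U, evM f x p = 0) → ∀ x Y, evX x Y p = 0) :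
    TorM U f (fun _ => Set.univ) := by
  refine ⟨fun x _ => trivial, fun p hp x _ Y _ => h p hp x Y, fun x _ Y _ => ?_, ?_⟩
  · refine ⟨fun s => Polynomial.C (f s x) + Polynomial.X * Polynomial.C (Y s - f s x), ?_, ?_, fun t => trivial⟩
    · intro s
      simp
    · intro s
      simp
  · refine ⟨1, one_ne_zero, fun x0 _ _ Y0 _ => ⟨fun s => MvPolynomial.C (Y0 s), fun x _ _ => trivial, fun s => ?_⟩⟩
    simp

/-- polynomials which vanish everywhere -/
theorem coef_zero {σ : Type} [Fintype σ] [DecidableEq σ] {k : ℕ} (a : (σ → Fin (k + 1)) → ℂ)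
    (h : ∀ Y : σ → ℂ, ∑ l, a l * ∏ y, Y y ^ (l y : ℕ) = 0) (l : σ → Fin (k + 1)) : a l = 0 := by
  classical
  set g : (σ → Fin (k + 1)) → σ →₀ ℕ := fun l => Finsupp.equivFunOnFinite.symm fun y => (l y : ℕ) with hg
  have hgi : Function.Injective g := by
    intro l l' hll
    funext y
    have h1 := congrArg (fun m : σ →₀ ℕ => m y) hll
    exact Fin.ext h1
  set P : MvPolynomial σ ℂ := ∑ l, MvPolynomial.monomial (g l) (a l) with hP
  have h1 : P = 0 := by
    refine MvPolynomial.funext fun Y => ?_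
    rw [hP, map_sum, map_zero, ← h Y]
    refine Finset.sum_congr rfl fun l _ => ?_
    rw [MvPolynomial.eval_monomial, Finsupp.prod_fintype _ _ (fun y => pow_zero _)]
    rfl
  have h2 : P.coeff (g l) = a l := by
    rw [hP, MvPolynomial.coeff_sum, Finset.sum_eq_single l]
    · rw [MvPolynomial.coeff_monomial, if_pos rfl]
    · intro l' _ hl'
      rw [MvPolynomial.coeff_monomial, if_neg (fun h => hl' (hgi h))]
    · intro hl
      exact absurd (Finset.mem_univ l) hl
  rw [← h2, h1, MvPolynomial.coeff_zero]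

/-- no relations of degree at most `k` with coefficients in the span of the `ξ`, of size at most `H` -/
def NoR {σ : Type} [Fintype σ] [DecidableEq σ] (k : ℕ) (K : Type) [Field K] [NumberField K] (io : K →+* ℂ)
    (ξ : Fin k → ℂ) (H : ℝ) (x : σ → ℂ) : Prop :=
  ∀ c : (σ → Fin (k + 1)) → Fin k → 𝓞 K, (∀ l a (φ : K →+* ℂ), ‖φ (c l a : K)‖ ≤ H) →
    ∑ l, (∑ a, ξ a * io (c l a : K)) * ∏ y, x y ^ (l y : ℕ) = 0 → ∀ l, ∑ a, ξ a * io (c l a : K) = 0

/-- the exceptional points -/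
def Exc {X σ : Type} [Fintype X] [Fintype σ] [DecidableEq σ] (U : Set (X → ℂ)) (f : σ → (X → ℂ) → ℂ) (k : ℕ)
    (K : Type) [Field K] [NumberField K] (io : K →+* ℂ) (ξ : Fin k → ℂ) (T : ℝ) : Set (X → K) :=
  {e | (∀ j, Y120.HtLe K T (e j)) ∧ (fun j => io (e j)) ∈ InnerM U k ∧
    ¬ NoR k K io ξ (T ^ k) (fun s => f s fun j => io (e j))}

open Pool.Agent.Y124 (Cov)

/-- independent functions -/
theorem mainI {X σ : Type} [Fintype X] [DecidableEq X] [Nonempty X] [Fintype σ] [DecidableEq σ] {U : Set (X → ℂ)}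
    {f : σ → (X → ℂ) → ℂ} (hU : IsPreconnected U) (hUo : IsOpen U) (hne : U.Nonempty)
    (hf : ∀ i, AnalyticOnNhd ℂ (f i) U)
    (h : ∀ p : MvPolynomial σ (MvPolynomial X ℂ), (∀ x ∈ U, evM f x p = 0) → ∀ x Y, evX x Y p = 0) :
    ∃ (ω : ℝ → ℕ) (T₀ : ℝ), Tendsto ω atTop atTop ∧ Monotone ω ∧ ∀ T, T₀ ≤ T → 0 < ω T ∧
      ∀ (K : Type) [Field K] [NumberField K], Module.finrank ℚ K ≤ ω T → ∀ (io : K →+* ℂ) (ξ : Fin (ω T) → ℂ),
        Cov ⌊T ^ ((ω T : ℝ)⁻¹)⌋₊ ⌊T ^ ((ω T : ℝ)⁻¹)⌋₊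
          ((fun (e : X → K) j => io (e j)) '' Exc U f (ω T) K io ξ T) ∧
        (Exc U f (ω T) K io ξ T).Finite ∧
        ((Exc U f (ω T) K io ξ T).ncard : ℝ) ≤
          T ^ ((ω T : ℝ)⁻¹) * ({x : K | Y120.HtLe K T x}.ncard : ℝ) ^ (Fintype.card X - 1) := by
  classical
  refine omega_gen (fun k => Fin k → ℂ) (fun k K _ _ io ξ T => Exc U f k K io ξ T)
    (fun k K _ _ io ξ T s hs => hs.1) ?_
  intro k ε hε
  rcases Nat.eq_zero_or_pos k with hk | hk
  · refine ⟨0, 0, 2, le_rfl, le_rfl, ?_⟩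
    intro K _ _ hK
    have h1 : 0 < Module.finrank ℚ K := Module.finrank_pos
    omega
  obtain ⟨D, C, T₀, hC, hT₀, H⟩ := excT_cov hU hUo hne hf (torFree h) (InnerM U k) (innerM_compact _ _)
    (innerM_sub _ hk) k (Fin k) k (k : ℝ) ε hε
  refine ⟨D, C, T₀, hC, hT₀, fun K _ _ hK io ξ T hT0 => ?_⟩
  refine (H K hK io ξ T hT0).mono le_rfl le_rfl (Set.image_mono ?_)
  rintro e ⟨h1, h2, h3⟩
  refine ⟨h1, h2, ?_⟩
  unfold NoR at h3
  push Not at h3
  obtain ⟨c, hc1, hc2, l, hl⟩ := h3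
  refine ⟨c, fun l i φ => ?_, hc2, fun h4 => hl (coef_zero _ (fun Y => h4 Y trivial) l)⟩
  rw [Real.rpow_natCast]
  exact hc1 l i φ

end Pool.Agent.N121.OT
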